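import Pool.Agent.Helper63.PG.Alg

/-! # The polylogarithmic on-line algorithm: definitions

The same algorithm as in `PG/Alg.lean`; only the anchors are different.  They come from a
decomposition of the STATIC graph at the time stamp (idea: helper78).  The parameter `K` is a dummy
(it is kept so that the proofs of project PG can be reused).
-/

set_option autoImplicit false

namespace Pool.Agent.Helper63.PH

open Pool.Agent.Helper63.PG hiding ci cj cl Bl isAnc anc near ng kap lab1 H1 tt Lab lab G3 Gm col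
  AncS Vs UU LabF ColF
open Pool.Agent.Helper63.OC Pool.Agent.Helper24.OCM

/-- the size class of the ball of radius `r` around `v` at time `v` -/
noncomputable def bl (G : SimpleGraph ℕ) (v r : ℕ) : ℕ := Nat.log 2 (bal G v r).ncard

/-- the first radius with slow growth -/
noncomputable def cr (_K : ℕ) (G : SimpleGraph ℕ) (v : ℕ) : ℕ :=
  sInf {r | bl G v r = bl G v (r + 2)}

/-- the first label -/
noncomputable def lab1 (K : ℕ) (G : SimpleGraph ℕ) (v : ℕ) : ℕ × ℕ :=
  (cr K G v, bl G v (cr K G v))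

/-- the edges inside the classes of the first label -/
noncomputable def H1 (K : ℕ) (G : SimpleGraph ℕ) : SimpleGraph ℕ := mono G (lab1 K G)

/-- the time stamp of `v` -/
noncomputable def tt (K : ℕ) (G : SimpleGraph ℕ) (v : ℕ) : ℕ := tau (H1 K G) v

/-- `p a = (class, centre)` is a decomposition of the static graph at time `τ` for the distance
`q` -/
def NDec (G : SimpleGraph ℕ) (τ q : ℕ) (p : ℕ → ℕ × ℕ) : Prop :=
  (∀ a ≤ τ, (p a).1 ≤ Nat.log 2 (τ + 1) ∧ (p a).2 ≤ τ ∧
    nr G τ a (p a).2 (q * Nat.log 2 (τ + 1))) ∧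
  ∀ a ≤ τ, ∀ b ≤ τ, nr G τ a b q → (p a).1 = (p b).1 → (p a).2 = (p b).2

open Classical in
/-- a fixed decomposition, depending only on `pre G τ` -/
noncomputable def dec (G : SimpleGraph ℕ) (τ q : ℕ) : ℕ → ℕ × ℕ :=
  if h : ∃ p, NDec (pre G τ) τ q p then h.choose else fun _ => (0, 0)

/-- the class of the first neighbour -/
noncomputable def nc (K : ℕ) (G : SimpleGraph ℕ) (v : ℕ) : ℕ :=
  (dec G (tt K G v) (2 * cr K G v) (fn (H1 K G) v)).1

/-- the anchor of `v` -/
noncomputable def anc (K : ℕ) (G : SimpleGraph ℕ) (v : ℕ) : ℕ :=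
  (dec G (tt K G v) (2 * cr K G v) (fn (H1 K G) v)).2

/-! ### the algorithm -/

/-- labels -/
abbrev Lab : Type := (ℕ × ℕ) × ℕ × ℕ × ℕ × ℕ

open Classical in
/-- the label of `v` -/
noncomputable def lab (K k : ℕ) (G : SimpleGraph ℕ) (v : ℕ) : Lab :=
  (lab1 K G v, lab2 (H1 K G) v, if hasp (H1 K G) v then
    (nc K G v, lay G (anc K G v) (tt K G v) v, cc k G (anc K G v) (tt K G v) v) else (0, 0, 0))

/-- the edges inside the label classes -/
noncomputable def G3 (K k : ℕ) (G : SimpleGraph ℕ) : SimpleGraph ℕ := mono G (lab K k G)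

/-- the graph `Γ` -/
noncomputable def Gm (K k : ℕ) (G : SimpleGraph ℕ) : SimpleGraph ℕ where
  Adj u v := (G3 K k G).Adj u v ∧ ∃ w, w ∈ TT k G (anc K G u) (tt K G u) u ∧
    w ∈ TT k G (anc K G v) (tt K G v) v
  symm := ⟨fun _ _ ⟨h, w, h1, h2⟩ => ⟨h.symm, w, h2, h1⟩⟩
  loopless := ⟨fun _ h => (G3 K k G).loopless.irrefl _ h.1⟩

/-- the colour of `v`; the first argument of the recursion is the clique number -/
noncomputable def col (K k : ℕ) : ℕ → SimpleGraph ℕ → ℕ → List (Lab × List (ℕ × ℕ))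
  | 0, _, _ => []
  | 1, _, _ => []
  | (w + 2), G, v =>
    (lab K k G v, fcol k (mono (G3 K k G) (col K k (w + 1) (Gm K k G))) v) ::
      col K k (w + 1) (Gm K k G) v

/-! ### notions used in the statements of the modules -/

/-- the static distance of a vertex to its anchor -/
noncomputable def rad (K : ℕ) (G : SimpleGraph ℕ) (v : ℕ) : ℕ :=
  2 * cr K G v * Nat.log 2 (tt K G v + 1)

/-- conclusion of the anchor part -/
def AncS (K : ℕ) (G : SimpleGraph ℕ) : Prop :=
  (∀ v, hasp (H1 K G) v → anc K G v ≤ tt K G v ∧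
    nr G (tt K G v) (fn (H1 K G) v) (anc K G v) (rad K G v)) ∧
  (∀ u v, u < v → (H1 K G).Adj u v → lab2 (H1 K G) u = lab2 (H1 K G) v → nc K G u = nc K G v →
    anc K G u = anc K G v)

/-- what is known about the static neighbourhood of `v` -/
structure Vs (K k : ℕ) (G : SimpleGraph ℕ) (v : ℕ) : Prop where
  ancle : anc K G v ≤ tt K G v
  ttlt : tt K G v < v
  layle : lay G (anc K G v) (tt K G v) v ≤ rad K G v
  laymin : ∀ w r, w ≤ tt K G v → G.Adj v w → nr G (tt K G v) (anc K G v) w r →
    lay G (anc K G v) (tt K G v) v ≤ r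
  ne : (TT k G (anc K G v) (tt K G v) v).Nonempty

/-- the vertices with given data -/
def UU (K k : ℕ) (G : SimpleGraph ℕ) (x τ i c : ℕ) : Set ℕ :=
  {v | hasp (H1 K G) v ∧ anc K G v = x ∧ tt K G v = τ ∧ lay G x τ v = i ∧ cc k G x τ v = c}

/-- the possible labels; `l` is a bound for the binary logarithm of the number of vertices -/
def LabF (k l : ℕ) : Finset Lab :=
  (Finset.range (2 * l + 3) ×ˢ Finset.range (l + 1)) ×ˢ
    Finset.range (l + 2) ×ˢ Finset.range (l + 1) ×ˢ Finset.range (2 * (2 * l + 2) * l + 1) ×ˢ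
      Finset.range (k + 1)

open Classical in
/-- the possible colours -/
noncomputable def ColF (k n : ℕ) : ℕ → Finset (List (Lab × List (ℕ × ℕ)))
  | 0 => {[]}
  | (m + 1) => ((LabF k (Nat.log 2 n) ×ˢ F2 n (k - 1)) ×ˢ ColF k n m).image
      fun p => p.1 :: p.2

end Pool.Agent.Helper63.PH
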