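import Pool.Agent.Helper63.PH.Alg

/-! # MODULE CLO3 of project PG: the colouring is on-line -/

set_option autoImplicit false

namespace Pool.Agent.Helper63.PH

open Pool.Agent.Helper63.PG hiding ci cj cl Bl isAnc anc near ng kap lab1 H1 tt Lab lab G3 Gm col AncS Vs UU LabF ColF
open Pool.Agent.Helper63.OC Pool.Agent.Helper24.OCM

theorem mono_pre_gen {α : Type*} {s : ℕ} (G : SimpleGraph ℕ) (c c' : ℕ → α)
    (h : ∀ v ≤ s, c' v = c v) : mono (pre G s) c' = pre (mono G c) s := by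
  ext a b
  show (a ≤ s ∧ b ≤ s ∧ G.Adj a b) ∧ c' a = c' b ↔ a ≤ s ∧ b ≤ s ∧ (G.Adj a b ∧ c a = c b)
  constructor
  · rintro ⟨⟨h1, h2, h3⟩, h4⟩
    rw [h _ h1, h _ h2] at h4
    exact ⟨h1, h2, h3, h4⟩
  · rintro ⟨h1, h2, h3, h4⟩
    refine ⟨⟨h1, h2, h3⟩, ?_⟩
    rw [h _ h1, h _ h2]
    exact h4

theorem kc_pre {k : ℕ} {G : SimpleGraph ℕ} {s τ : ℕ} (h : τ ≤ s) :
    kc k (pre G s) τ = kc k G τ := by
  unfold kc
  rw [pre_pre h]

theorem adj_pre' {G : SimpleGraph ℕ} {s v w : ℕ} (hv : v ≤ s) (hw : w ≤ s) :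
    (pre G s).Adj v w ↔ G.Adj v w := ⟨fun h => h.2.2, fun h => ⟨hv, hw, h⟩⟩

theorem lay_pre {G : SimpleGraph ℕ} {s x τ v : ℕ} (hτ : τ ≤ s) (hv : v ≤ s) :
    lay (pre G s) x τ v = lay G x τ v := by
  unfold lay
  congr 1
  ext r
  simp only [Set.mem_setOf_eq]
  constructor
  · rintro ⟨w, h1, h2, h3⟩
    exact ⟨w, h1, h2.2.2, (nr_pre hτ).1 h3⟩
  · rintro ⟨w, h1, h2, h3⟩
    exact ⟨w, h1, ⟨hv, h1.trans hτ, h2⟩, (nr_pre hτ).2 h3⟩

theorem cc_pre {k : ℕ} {G : SimpleGraph ℕ} {s x τ v : ℕ} (hτ : τ ≤ s) (hv : v ≤ s) :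
    cc k (pre G s) x τ v = cc k G x τ v := by
  unfold cc
  rw [lay_pre hτ hv, kc_pre hτ]
  congr 1
  ext r
  simp only [Set.mem_setOf_eq]
  constructor
  · rintro ⟨w, h1, h2, h3, h4⟩
    exact ⟨w, h1, h2.2.2, (nr_pre hτ).1 h3, h4⟩
  · rintro ⟨w, h1, h2, h3, h4⟩
    exact ⟨w, h1, ⟨hv, h1.trans hτ, h2⟩, (nr_pre hτ).2 h3, h4⟩

theorem TT_pre {k : ℕ} {G : SimpleGraph ℕ} {s x τ v : ℕ} (hτ : τ ≤ s) (hv : v ≤ s) :
    TT k (pre G s) x τ v = TT k G x τ v := by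
  unfold TT
  rw [lay_pre hτ hv, kc_pre hτ, cc_pre hτ hv]
  ext w
  simp only [Set.mem_setOf_eq]
  constructor
  · rintro ⟨h1, h2, h3, h4⟩
    exact ⟨h1, h2.2.2, (nr_pre hτ).1 h3, h4⟩
  · rintro ⟨h1, h2, h3, h4⟩
    exact ⟨h1, ⟨hv, h1.trans hτ, h2⟩, (nr_pre hτ).2 h3, h4⟩

theorem hCLO3 (K k : ℕ)
    (hl1 : ∀ (G : SimpleGraph ℕ) (s : ℕ),
      (∀ v ≤ s, hasp (H1 K G) v → anc K (pre G s) v = anc K G v ∧ nc K (pre G s) v = nc K G v) ∧
      (∀ v ≤ s, lab1 K (pre G s) v = lab1 K G v))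
    (hl2 : ∀ (H : SimpleGraph ℕ) (s : ℕ), (∀ v ≤ s, (hasp (pre H s) v ↔ hasp H v)) ∧
      (∀ v ≤ s, tau (pre H s) v = tau H v) ∧ (∀ v ≤ s, lab2 (pre H s) v = lab2 H v))
    (hV : ∀ (G : SimpleGraph ℕ) v, hasp (H1 K G) v → Vs K k G v)
    (hD : ∀ (G : SimpleGraph ℕ) u v, (G3 K k G).Adj u v →
      hasp (H1 K G) u ∧ hasp (H1 K G) v) :
    ∀ (w : ℕ) (G : SimpleGraph ℕ) (s t : ℕ), t ≤ s → col K k w (pre G s) t = col K k w G t := by
  have hH1 : ∀ (G : SimpleGraph ℕ) (s : ℕ), H1 K (pre G s) = pre (H1 K G) s := fun G s =>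
    mono_pre_gen G _ _ (hl1 G s).2
  have htt : ∀ (G : SimpleGraph ℕ) (s v : ℕ), v ≤ s → tt K (pre G s) v = tt K G v := by
    intro G s v hv
    unfold tt
    rw [hH1, (hl2 _ s).2.1 v hv]
  have hlab : ∀ (G : SimpleGraph ℕ) (s v : ℕ), v ≤ s → lab K k (pre G s) v = lab K k G v := by
    intro G s v hv
    unfold lab
    rw [(hl1 G s).2 v hv, hH1, (hl2 _ s).2.2 v hv]
    by_cases hp : hasp (H1 K G) v
    · have hp' : hasp (pre (H1 K G) s) v := ((hl2 _ s).1 v hv).2 hp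
      have hτ : tt K G v ≤ s := (hV G v hp).ttlt.le.trans hv
      rw [if_pos hp, if_pos hp', htt G s v hv, ((hl1 G s).1 v hv hp).1, ((hl1 G s).1 v hv hp).2,
        lay_pre hτ hv, cc_pre hτ hv]
    · have hp' : ¬ hasp (pre (H1 K G) s) v := fun h => hp (((hl2 _ s).1 v hv).1 h)
      rw [if_neg hp, if_neg hp']
  have hG3 : ∀ (G : SimpleGraph ℕ) (s : ℕ), G3 K k (pre G s) = pre (G3 K k G) s := fun G s =>
    mono_pre_gen G _ _ (hlab G s)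
  have hTT : ∀ (G : SimpleGraph ℕ) (s v : ℕ), v ≤ s → hasp (H1 K G) v →
      TT k (pre G s) (anc K (pre G s) v) (tt K (pre G s) v) v =
      TT k G (anc K G v) (tt K G v) v := by
    intro G s v hv hp
    have hτ : tt K G v ≤ s := (hV G v hp).ttlt.le.trans hv
    rw [((hl1 G s).1 v hv hp).1, htt G s v hv, TT_pre hτ hv]
  have hGm : ∀ (G : SimpleGraph ℕ) (s : ℕ), Gm K k (pre G s) = pre (Gm K k G) s := by
    intro G s
    ext u v
    show ((G3 K k (pre G s)).Adj u v ∧ ∃ w,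
        w ∈ TT k (pre G s) (anc K (pre G s) u) (tt K (pre G s) u) u ∧
        w ∈ TT k (pre G s) (anc K (pre G s) v) (tt K (pre G s) v) v) ↔
      u ≤ s ∧ v ≤ s ∧ ((G3 K k G).Adj u v ∧ ∃ w, w ∈ TT k G (anc K G u) (tt K G u) u ∧
        w ∈ TT k G (anc K G v) (tt K G v) v)
    rw [hG3]
    constructor
    · rintro ⟨⟨h1, h2, h3⟩, w, h4, h5⟩
      obtain ⟨hu, hv⟩ := hD G u v h3
      rw [hTT G s u h1 hu] at h4
      rw [hTT G s v h2 hv] at h5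
      exact ⟨h1, h2, h3, w, h4, h5⟩
    · rintro ⟨h1, h2, h3, w, h4, h5⟩
      obtain ⟨hu, hv⟩ := hD G u v h3
      refine ⟨⟨h1, h2, h3⟩, w, ?_, ?_⟩
      · rw [hTT G s u h1 hu]
        exact h4
      · rw [hTT G s v h2 hv]
        exact h5
  intro w
  induction w with
  | zero =>
    intro G s t _
    rfl
  | succ w ih =>
    rcases w with _ | w
    · intro G s t _
      rfl
    · intro G s t ht
      rw [col, col, hGm, hG3, hlab G s t ht, ih _ s t ht,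
        mono_pre_gen (G3 K k G) (col K k (w + 1) (Gm K k G)) (col K k (w + 1) (pre (Gm K k G) s))
          (fun v hv => ih _ s v hv), fcol_pre k _ s t ht]

end Pool.Agent.Helper63.PH
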