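import Pool.Agent.Helper63.PH.Alg

set_option autoImplicit false

namespace Pool.Agent.Helper63.PH

open Pool.Agent.Helper63.PG hiding ci cj cl Bl isAnc anc near ng kap lab1 H1 tt Lab lab G3 Gm col AncS Vs UU LabF ColF
open Pool.Agent.Helper63.OC Pool.Agent.Helper24.OCM

/-- MODULE GCL. -/
theorem hGCL {K k w : ℕ} {G : SimpleGraph ℕ} (hF : G.CliqueFree (w + 3)) (hO : OneLayer)
    (hD : ∀ u v, (G3 K k G).Adj u v →
      hasp (H1 K G) u ∧ hasp (H1 K G) v ∧ anc K G u = anc K G v ∧ tt K G u = tt K G v ∧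
      lay G (anc K G u) (tt K G u) u = lay G (anc K G v) (tt K G v) v ∧
      cc k G (anc K G u) (tt K G u) u = cc k G (anc K G v) (tt K G v) v)
    (hL : ∀ x τ i c, Lay G {w | w ≤ τ ∧ nr G τ x w i}
      {w | w ≤ τ ∧ nr G τ x w (i + 1) ∧ ¬ nr G τ x w i ∧ kc k G τ w = c}
      (UU K k G x τ (i + 1) c))
    (hR : ∀ x τ c, (∀ u ∈ UU K k G x τ 0 c, G.Adj x u) ∧
      (∀ u ∈ UU K k G x τ 0 c, ∀ v ∈ UU K k G x τ 0 c, lab K k G u = lab K k G v →
        ((Gm K k G).Adj u v ↔ G.Adj u v)) ∧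
      (∀ i, ∀ u ∈ UU K k G x τ (i + 1) c, ∀ v ∈ UU K k G x τ (i + 1) c,
        lab K k G u = lab K k G v →
        ((Gm K k G).Adj u v ↔
          (Gam G {w | w ≤ τ ∧ nr G τ x w (i + 1) ∧ ¬ nr G τ x w i ∧ kc k G τ w = c}
            (UU K k G x τ (i + 1) c)).Adj u v))) : (Gm K k G).CliqueFree (w + 2) := by
  intro Q hQ
  have hcl : ∀ a ∈ Q, ∀ b ∈ Q, a ≠ b → (Gm K k G).Adj a b := fun a ha b hb hab =>
    hQ.isClique ha hb hab
  have hcard : 1 < Q.card := by rw [hQ.card_eq]; omega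
  obtain ⟨u, hu, u', hu', huu⟩ := Finset.one_lt_card.mp hcard
  have hdat : ∀ v ∈ Q,
      v ∈ UU K k G (anc K G u) (tt K G u) (lay G (anc K G u) (tt K G u) u)
        (cc k G (anc K G u) (tt K G u) u) ∧ lab K k G v = lab K k G u := by
    intro v hv
    by_cases hvu : u = v
    · subst hvu
      exact ⟨⟨(hD _ _ (hcl _ hu _ hu' huu).1).1, rfl, rfl, rfl, rfl⟩, rfl⟩
    · have hs := (hcl _ hu _ hv hvu).1
      obtain ⟨b1, b2, b3, b4, b5, b6⟩ := hD _ _ hs
      refine ⟨⟨b2, b3.symm, b4.symm, ?_, ?_⟩, hs.2.symm⟩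
      · rw [b5, b3, b4]
      · rw [b6, b3, b4]
  have key : ∃ t, ∀ v ∈ Q, G.Adj t v := by
    rcases hi : lay G (anc K G u) (tt K G u) u with _ | i
    · rw [hi] at hdat
      exact ⟨anc K G u, fun v hv => (hR _ _ _).1 v (hdat v hv).1⟩
    · rw [hi] at hdat
      obtain ⟨t, -, ht⟩ := (hO _ _ _ _ (hL (anc K G u) (tt K G u) i
        (cc k G (anc K G u) (tt K G u) u))).2.1 Q ⟨u, hu⟩ (fun v hv => (hdat v hv).1)
        (fun a ha b hb hab => ((hR _ _ _).2.2 i _ (hdat a ha).1 _ (hdat b hb).1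
          ((hdat a ha).2.trans (hdat b hb).2.symm)).mp (hcl a ha b hb hab))
      exact ⟨t, ht⟩
  obtain ⟨t, ht⟩ := key
  classical
  have htQ : t ∉ Q := fun h => G.loopless.irrefl _ (ht t h)
  refine hF (insert t Q) ⟨?_, ?_⟩
  · intro a ha b hb hab
    rw [Finset.mem_coe, Finset.mem_insert] at ha hb
    rcases ha with ha | ha
    · rcases hb with hb | hb
      · exact absurd (ha.trans hb.symm) hab
      · rw [ha]
        exact ht b hb
    · rcases hb with hb | hb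
      · rw [hb]
        exact (ht a ha).symm
      · exact (hcl a ha b hb hab).1.1
  · rw [Finset.card_insert_of_notMem htQ, hQ.card_eq]

end Pool.Agent.Helper63.PH
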