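import Pool.Agent.Helper63.PH.Alg

/-! # Project PG (MP_cde131_lc), module GME -/

set_option autoImplicit false

namespace Pool.Agent.Helper63.PH

open Pool.Agent.Helper63.PG hiding ci cj cl Bl isAnc anc near ng kap lab1 H1 tt Lab lab G3 Gm col AncS Vs UU LabF ColF
open Pool.Agent.Helper63.OC Pool.Agent.Helper24.OCM

theorem hGME {K k : ℕ} {G : SimpleGraph ℕ} {α : Type} (c0 : ℕ → α)
    (hp : ∀ u v, (Gm K k G).Adj u v → c0 u ≠ c0 v) (hO : OneLayer)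
    (hD : ∀ u v, (G3 K k G).Adj u v →
      hasp (H1 K G) u ∧ hasp (H1 K G) v ∧ anc K G u = anc K G v ∧ tt K G u = tt K G v ∧
      lay G (anc K G u) (tt K G u) u = lay G (anc K G v) (tt K G v) v ∧
      cc k G (anc K G u) (tt K G u) u = cc k G (anc K G v) (tt K G v) v)
    (hL : ∀ x τ i c, Lay G {w | w ≤ τ ∧ nr G τ x w i}
      {w | w ≤ τ ∧ nr G τ x w (i + 1) ∧ ¬ nr G τ x w i ∧ kc k G τ w = c}
      (UU K k G x τ (i + 1) c))
    (hR : ∀ x τ c, (∀ u ∈ UU K k G x τ 0 c, G.Adj x u) ∧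
      (∀ u ∈ UU K k G x τ 0 c, ∀ v ∈ UU K k G x τ 0 c, lab K k G u = lab K k G v →
        ((Gm K k G).Adj u v ↔ G.Adj u v)) ∧
      (∀ i, ∀ u ∈ UU K k G x τ (i + 1) c, ∀ v ∈ UU K k G x τ (i + 1) c,
        lab K k G u = lab K k G v →
        ((Gm K k G).Adj u v ↔
          (Gam G {w | w ≤ τ ∧ nr G τ x w (i + 1) ∧ ¬ nr G τ x w i ∧ kc k G τ w = c}
            (UU K k G x τ (i + 1) c)).Adj u v))) :
    IsMeyniel (mono (G3 K k G) c0) := by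
  intro L hL1 h5 f hf hadj
  have hne : NeZero L := ⟨by rintro rfl; exact absurd hL1 (by decide)⟩
  have h01 : ∀ i : ZMod L, (G3 K k G).Adj (f i) (f (i + 1)) := fun i => (hadj i).1
  obtain ⟨x, hx⟩ : ∃ x, anc K G (f 0) = x := ⟨_, rfl⟩
  obtain ⟨τ, hτ⟩ : ∃ τ, tt K G (f 0) = τ := ⟨_, rfl⟩
  obtain ⟨j, hj⟩ : ∃ j, lay G x τ (f 0) = j := ⟨_, rfl⟩
  obtain ⟨c, hcc⟩ : ∃ c, cc k G x τ (f 0) = c := ⟨_, rfl⟩
  have hnat : ∀ n : ℕ, f (n : ZMod L) ∈ UU K k G x τ j c ∧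
      lab K k G (f (n : ZMod L)) = lab K k G (f 0) ∧ c0 (f (n : ZMod L)) = c0 (f 0) := by
    intro n
    induction n with
    | zero =>
      have h1 := hD _ _ (h01 0)
      exact ⟨by rw [Nat.cast_zero]; exact ⟨h1.1, hx, hτ, hj, hcc⟩, by simp, by simp⟩
    | succ n ih =>
      obtain ⟨⟨i1, i2, i3, i4, i5⟩, i6, i7⟩ := ih
      have h1 := hD _ _ (h01 (n : ZMod L))
      obtain ⟨d1, d2, d3, d4, d5, d6⟩ := h1
      have h2 := (h01 (n : ZMod L)).2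
      have h3 := (hadj (n : ZMod L)).2
      push_cast
      rw [← d3, ← d4, i2, i3] at d5 d6
      refine ⟨⟨d2, by rw [← d3, i2], by rw [← d4, i3], by rw [← d5, i4], by rw [← d6, i5]⟩, ?_, ?_⟩
      · rw [← h2, i6]
      · rw [← h3, i7]
  have hall : ∀ i : ZMod L, f i ∈ UU K k G x τ j c ∧ lab K k G (f i) = lab K k G (f 0) ∧
      c0 (f i) = c0 (f 0) := by
    intro i
    have := hnat i.val
    rwa [ZMod.natCast_zmod_val] at this
  rcases j with _ | i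
  · exfalso
    have h1 := ((hR x τ c).2.1 (f 0) (hall 0).1 (f (0 + 1)) (hall (0 + 1)).1
      (hall (0 + 1)).2.1.symm).2 (h01 0).1
    exact hp _ _ h1 (hall (0 + 1)).2.2.symm
  · obtain ⟨a, b, a', b', ⟨h1, h2, h3⟩, ⟨h4, h5, h6⟩, h7⟩ :=
      (hO G _ _ _ (hL x τ i c)).2.2
        {v | v ∈ UU K k G x τ (i + 1) c ∧ lab K k G v = lab K k G (f 0) ∧ c0 v = c0 (f 0)}
        (fun v hv => hv.1) (by
          rintro u ⟨hu1, hu2, hu3⟩ v ⟨hv1, hv2, hv3⟩ huv hcm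
          have h8 := ((hR x τ c).2.2 i u hu1 v hv1 (hu2.trans hv2.symm)).2 ⟨hu1, hv1, huv, hcm⟩
          exact hp _ _ h8 (hu3.trans hv3.symm)) L hL1 h5 f hf hall (fun i => (h01 i).1)
    exact ⟨a, b, a', b',
      ⟨⟨⟨h1, (hall a).2.1.trans (hall b).2.1.symm⟩, (hall a).2.2.trans (hall b).2.2.symm⟩, h2, h3⟩,
      ⟨⟨⟨h4, (hall a').2.1.trans (hall b').2.1.symm⟩,
        (hall a').2.2.trans (hall b').2.2.symm⟩, h5, h6⟩, h7⟩

end Pool.Agent.Helper63.PH
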