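import Pool.Agent.Helper63.PH.Alg

/-! # Project PG, module GMR: the graph `Γ` inside a class -/

set_option autoImplicit false

namespace Pool.Agent.Helper63.PH

open Pool.Agent.Helper63.PG hiding ci cj cl Bl isAnc anc near ng kap lab1 H1 tt Lab lab G3 Gm col AncS Vs UU LabF ColF
open Pool.Agent.Helper63.OC Pool.Agent.Helper24.OCM

theorem nr_zero_GMR {G : SimpleGraph ℕ} {t a b : ℕ} (h : nr G t a b 0) : b = a := by
  obtain ⟨p, hp⟩ := h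
  exact (SimpleGraph.Walk.eq_of_length_eq_zero (by omega : p.length = 0)).symm

/-- the static neighbours for layer `0` -/
theorem TT_zero_GMR {K k : ℕ} {G : SimpleGraph ℕ}
    (hV : ∀ v, hasp (H1 K G) v → Vs K k G v) {x τ c u : ℕ} (hu : u ∈ UU K k G x τ 0 c) :
    x ∈ TT k G (Pool.Agent.Helper63.PH.anc K G u) (tt K G u) u ∧ G.Adj u x ∧
    ∀ w ∈ TT k G (Pool.Agent.Helper63.PH.anc K G u) (tt K G u) u, w = x := by
  obtain ⟨h1, h2, h3, h4, h5⟩ := hu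
  have hv := hV u h1
  obtain ⟨w, hw⟩ := hv.ne
  have hall : ∀ w ∈ TT k G (Pool.Agent.Helper63.PH.anc K G u) (tt K G u) u, w = x := by
    intro w hw
    obtain ⟨a1, a2, a3, a4⟩ := hw
    rw [h2, h3, h4] at a3
    exact nr_zero_GMR a3
  have hwx := hall w hw
  rw [hwx] at hw
  exact ⟨hw, hw.2.1, hall⟩

/-- the static neighbours for layer `i + 1` -/
theorem TT_succ_GMR {K k : ℕ} {G : SimpleGraph ℕ}
    (hV : ∀ v, hasp (H1 K G) v → Vs K k G v) {x τ c i u : ℕ} (hu : u ∈ UU K k G x τ (i + 1) c)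
    (w : ℕ) :
    w ∈ TT k G (Pool.Agent.Helper63.PH.anc K G u) (tt K G u) u ↔
      (w ∈ {w | w ≤ τ ∧ nr G τ x w (i + 1) ∧ ¬ nr G τ x w i ∧ kc k G τ w = c} ∧ G.Adj w u) := by
  obtain ⟨h1, h2, h3, h4, h5⟩ := hu
  have hv := hV u h1
  have hmin := hv.laymin
  rw [h2, h3, h4] at hmin
  rw [h2, h3]
  unfold TT
  rw [h4, h5]
  constructor
  · rintro ⟨a1, a2, a3, a4⟩
    refine ⟨⟨a1, a3, ?_, a4⟩, a2.symm⟩
    intro hcon
    have := hmin w i a1 a2 hcon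
    omega
  · rintro ⟨⟨a1, a2, a3, a4⟩, a5⟩
    exact ⟨a1, a5.symm, a2, a4⟩

theorem hGMR {K k : ℕ} {G : SimpleGraph ℕ}
    (hV : ∀ v, hasp (H1 K G) v → Vs K k G v) (x τ c : ℕ) :
    (∀ u ∈ UU K k G x τ 0 c, G.Adj x u) ∧
    (∀ u ∈ UU K k G x τ 0 c, ∀ v ∈ UU K k G x τ 0 c, lab K k G u = lab K k G v →
      ((Gm K k G).Adj u v ↔ G.Adj u v)) ∧
    (∀ i, ∀ u ∈ UU K k G x τ (i + 1) c, ∀ v ∈ UU K k G x τ (i + 1) c,
      lab K k G u = lab K k G v →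
      ((Gm K k G).Adj u v ↔
        (Gam G {w | w ≤ τ ∧ nr G τ x w (i + 1) ∧ ¬ nr G τ x w i ∧ kc k G τ w = c}
          (UU K k G x τ (i + 1) c)).Adj u v)) := by
  refine ⟨?_, ?_, ?_⟩
  · intro u hu
    exact (TT_zero_GMR hV hu).2.1.symm
  · intro u hu v hv hl
    constructor
    · rintro ⟨h, -⟩
      exact h.1
    · intro h
      exact ⟨⟨h, hl⟩, x, (TT_zero_GMR hV hu).1, (TT_zero_GMR hV hv).1⟩
  · intro i u hu v hv hl
    constructor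
    · rintro ⟨h, w, hw1, hw2⟩
      rw [TT_succ_GMR hV hu] at hw1
      rw [TT_succ_GMR hV hv] at hw2
      exact ⟨hu, hv, h.1, w, hw1.1, hw1.2, hw2.2⟩
    · rintro ⟨-, -, h, w, hw, hwu, hwv⟩
      exact ⟨⟨h, hl⟩, w, (TT_succ_GMR hV hu w).2 ⟨hw, hwu⟩, (TT_succ_GMR hV hv w).2 ⟨hw, hwv⟩⟩

end Pool.Agent.Helper63.PH
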