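import Pool.Agent.Helper63.PH.Alg

set_option autoImplicit false

namespace Pool.Agent.Helper63.PH

open Pool.Agent.Helper63.PG hiding ci cj cl Bl isAnc anc near ng kap lab1 H1 tt Lab lab G3 Gm col AncS Vs UU LabF ColF
open Pool.Agent.Helper63.OC Pool.Agent.Helper24.OCM

/-- MODULE GNO. -/
theorem hGNO {K k : ℕ} {G : SimpleGraph ℕ} (hN : NOH G) (hO : OneLayer)
    (hD : ∀ u v, (G3 K k G).Adj u v →
      hasp (H1 K G) u ∧ hasp (H1 K G) v ∧ anc K G u = anc K G v ∧ tt K G u = tt K G v ∧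
      lay G (anc K G u) (tt K G u) u = lay G (anc K G v) (tt K G v) v ∧
      cc k G (anc K G u) (tt K G u) u = cc k G (anc K G v) (tt K G v) v)
    (hL : ∀ x τ i c, Lay G {w | w ≤ τ ∧ nr G τ x w i}
      {w | w ≤ τ ∧ nr G τ x w (i + 1) ∧ ¬ nr G τ x w i ∧ kc k G τ w = c}
      (UU K k G x τ (i + 1) c))
    (hR : ∀ x τ c, (∀ u ∈ UU K k G x τ 0 c, G.Adj x u) ∧
      (∀ u ∈ UU K k G x τ 0 c, ∀ v ∈ UU K k G x τ 0 c, lab K k G u = lab K k G v →
        ((Gm K k G).Adj u v ↔ G.Adj u v)) ∧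
      (∀ i, ∀ u ∈ UU K k G x τ (i + 1) c, ∀ v ∈ UU K k G x τ (i + 1) c,
        lab K k G u = lab K k G v →
        ((Gm K k G).Adj u v ↔
          (Gam G {w | w ≤ τ ∧ nr G τ x w (i + 1) ∧ ¬ nr G τ x w i ∧ kc k G τ w = c}
            (UU K k G x τ (i + 1) c)).Adj u v))) : NOH (Gm K k G) := by
  intro L hodd h5 f hf
  have hstep : ∀ j, j + 1 < L → (Gm K k G).Adj (f j) (f (j + 1)) := fun j hj =>
    (hf j (j + 1) (by omega) hj).mpr (Or.inl rfl)
  have hdat : ∀ j, j < L →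
      f j ∈ UU K k G (anc K G (f 0)) (tt K G (f 0)) (lay G (anc K G (f 0)) (tt K G (f 0)) (f 0))
        (cc k G (anc K G (f 0)) (tt K G (f 0)) (f 0)) ∧ lab K k G (f j) = lab K k G (f 0) := by
    intro j
    induction j with
    | zero =>
      intro _
      exact ⟨⟨(hD _ _ (hstep 0 (by omega)).1).1, rfl, rfl, rfl, rfl⟩, rfl⟩
    | succ j ih =>
      intro hj
      obtain ⟨⟨a1, a2, a3, a4, a5⟩, a6⟩ := ih (by omega)
      have hs := (hstep j hj).1
      obtain ⟨b1, b2, b3, b4, b5, b6⟩ := hD _ _ hs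
      have e1 : anc K G (f (j + 1)) = anc K G (f 0) := b3.symm.trans a2
      have e2 : tt K G (f (j + 1)) = tt K G (f 0) := b4.symm.trans a3
      refine ⟨⟨b2, e1, e2, ?_, ?_⟩, (hs.2.symm).trans a6⟩
      · rw [← a4, ← e1, ← e2, ← b5, b3, b4]
      · rw [← a5, ← e1, ← e2, ← b6, b3, b4]
  rcases hi : lay G (anc K G (f 0)) (tt K G (f 0)) (f 0) with _ | i
  · rw [hi] at hdat
    refine hN L hodd h5 f ?_
    intro a b hab hb
    rw [← (hR _ _ _).2.1 _ (hdat a (by omega)).1 _ (hdat b hb).1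
      ((hdat a (by omega)).2.trans (hdat b hb).2.symm)]
    exact hf a b hab hb
  · rw [hi] at hdat
    refine (hO _ _ _ _ (hL (anc K G (f 0)) (tt K G (f 0)) i
      (cc k G (anc K G (f 0)) (tt K G (f 0)) (f 0)))).1 L hodd h5 f ?_
    intro a b hab hb
    rw [← (hR _ _ _).2.2 i _ (hdat a (by omega)).1 _ (hdat b hb).1
      ((hdat a (by omega)).2.trans (hdat b hb).2.symm)]
    exact hf a b hab hb

end Pool.Agent.Helper63.PH
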