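import Pool.Agent.Helper63.PH.Alg

/-! # Project PG (MP_cde131_lc), module LAY -/

set_option autoImplicit false

namespace Pool.Agent.Helper63.PH

open Pool.Agent.Helper63.PG hiding ci cj cl Bl isAnc anc near ng kap lab1 H1 tt Lab lab G3 Gm col AncS Vs UU LabF ColF
open Pool.Agent.Helper63.OC Pool.Agent.Helper24.OCM

theorem nr_of_mem {G : SimpleGraph ℕ} {τ x a i y : ℕ} (p : (pre G τ).Walk x a)
    (hp : p.length ≤ i) (hy : y ∈ p.support) : nr G τ x y i :=
  ⟨p.takeUntil y hy, (p.length_takeUntil_le_length hy).trans hp⟩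

theorem kc_proper {k : ℕ} {G : SimpleGraph ℕ} (hc : G.Colorable k) {τ s t : ℕ}
    (h : (pre G τ).Adj s t) : kc k G τ s ≠ kc k G τ t := by
  have hle : pre G τ ≤ G := fun a b hab => hab.2.2
  have h1 : (pre G τ).Colorable k := hc.mono_left hle
  unfold kc
  rw [dif_pos h1]
  intro h2
  exact h1.some.valid h (Fin.ext h2)

theorem hLAY {K k : ℕ} {G : SimpleGraph ℕ} (hc : G.Colorable k) (hN : NOH G)
    (hV : ∀ v, hasp (H1 K G) v → Vs K k G v) (x τ i c : ℕ) :
    Lay G {w | w ≤ τ ∧ nr G τ x w i}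
      {w | w ≤ τ ∧ nr G τ x w (i + 1) ∧ ¬ nr G τ x w i ∧ kc k G τ w = c}
      (UU K k G x τ (i + 1) c) where
  noh := hN
  conn := by
    rintro a ⟨ha, ⟨p, hp⟩⟩ b ⟨hb, ⟨q, hq⟩⟩
    refine ⟨(p.reverse.append q).length, (p.reverse.append q).getVert,
      SimpleGraph.Walk.getVert_zero _, SimpleGraph.Walk.getVert_length _, ?_, ?_⟩
    · intro j _
      have hx : x ≤ τ := nr_le (nr_symm (G := G) ⟨p, hp⟩) ha
      have hm := (p.reverse.append q).getVert_mem_support j
      rw [SimpleGraph.Walk.mem_support_append_iff] at hm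
      have h1 : nr G τ x ((p.reverse.append q).getVert j) i := by
        rcases hm with hm | hm
        · rw [SimpleGraph.Walk.support_reverse, List.mem_reverse] at hm
          exact nr_of_mem p hp hm
        · exact nr_of_mem q hq hm
      exact ⟨nr_le h1 hx, h1⟩
    · intro j hj
      exact ((p.reverse.append q).adj_getVert_succ hj).2.2
  stab := by
    rintro s ⟨hs1, -, -, hs2⟩ t ⟨ht1, -, -, ht2⟩ hst
    exact kc_proper hc (τ := τ) (show (pre G τ).Adj s t from ⟨hs1, ht1, hst⟩) (hs2.trans ht2.symm)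
  tR := by
    rintro t ⟨ht1, ⟨p, hp⟩, ht2, -⟩
    have hlen : p.length = i + 1 := by
      by_contra hne
      exact ht2 ⟨p, by omega⟩
    have hadj := p.adj_getVert_succ (i := i) (by omega)
    have he : p.getVert (i + 1) = t := by
      rw [← hlen]
      exact p.getVert_length
    rw [he] at hadj
    refine ⟨p.getVert i, ⟨hadj.1, ⟨p.take i, ?_⟩⟩, hadj.2.2.symm⟩
    rw [SimpleGraph.Walk.take_length]
    exact min_le_left _ _
  anti := by
    rintro u ⟨hu, rfl, rfl, hl, -⟩ r ⟨hr1, hr2⟩ hadj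
    have h1 := (hV u hu).laymin r i hr1 hadj hr2
    omega
  sees := by
    rintro u ⟨hu, rfl, rfl, hl, hcc⟩
    obtain ⟨w, hw1, hw2, hw3, hw4⟩ := (hV u hu).ne
    refine ⟨w, ⟨hw1, ?_, ?_, hw4.trans hcc⟩, hw2.symm⟩
    · rw [← hl]
      exact hw3
    · intro hn
      have h1 := (hV u hu).laymin w i hw1 hw2 hn
      omega

end Pool.Agent.Helper63.PH
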