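import Pool.Agent.Helper63.PH.Alg

/-! Project PG (MP_cde131_lc), module LMM -/

set_option autoImplicit false

namespace Pool.Agent.Helper63.PH

open Pool.Agent.Helper63.PG hiding ci cj cl Bl isAnc anc near ng kap lab1 H1 tt Lab lab G3 Gm col AncS Vs UU LabF ColF
open Pool.Agent.Helper63.OC Pool.Agent.Helper24.OCM

theorem kc_le (k : ℕ) (G : SimpleGraph ℕ) (τ w : ℕ) : kc k G τ w ≤ k := by
  unfold kc
  split_ifs with h
  · exact (h.some w).isLt.le
  · exact Nat.zero_le k

theorem cc_le (k : ℕ) (G : SimpleGraph ℕ) (x τ v : ℕ) : cc k G x τ v ≤ k := by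
  by_cases h : {c | ∃ w, w ≤ τ ∧ G.Adj v w ∧ nr G τ x w (lay G x τ v) ∧ kc k G τ w = c}.Nonempty
  · obtain ⟨w, _, _, _, hw⟩ := Nat.sInf_mem h
    have h2 : kc k G τ w = cc k G x τ v := hw
    rw [← h2]
    exact kc_le k G τ w
  · rw [Set.not_nonempty_iff_eq_empty] at h
    have h2 : cc k G x τ v = 0 := by
      unfold cc
      rw [h, Nat.sInf_empty]
    rw [h2]
    exact Nat.zero_le k

theorem hLMM {K k n : ℕ} {G : SimpleGraph ℕ} {v : ℕ} (hv : v < n)
    (h1 : cr K G v ≤ 2 * Nat.log 2 (v + 1)) (h2 : bl G v (cr K G v) ≤ Nat.log 2 (v + 1))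
    (h3 : hasp (H1 K G) v → te (H1 K G) v ≤ Nat.log 2 v)
    (h4 : hasp (H1 K G) v → Vs K k G v)
    (h5 : hasp (H1 K G) v → nc K G v ≤ Nat.log 2 (tt K G v + 1)) :
    lab K k G v ∈ LabF k (Nat.log 2 n) := by
  have hl1 : Nat.log 2 (v + 1) ≤ Nat.log 2 n := Nat.log_mono_right hv
  have hlv : Nat.log 2 v ≤ Nat.log 2 n := Nat.log_mono_right hv.le
  have hl2 : lab2 (H1 K G) v < Nat.log 2 n + 2 := by
    unfold lab2
    split_ifs with h
    · have := h3 h
      omega
    · omega
  have hτ : hasp (H1 K G) v → Nat.log 2 (tt K G v + 1) ≤ Nat.log 2 n := fun h =>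
    Nat.log_mono_right (by have := (h4 h).ttlt; omega)
  unfold LabF
  rw [Finset.mem_product, Finset.mem_product, Finset.mem_product, Finset.mem_product,
    Finset.mem_product]
  refine ⟨⟨?_, ?_⟩, ?_, ?_, ?_, ?_⟩
  · exact Finset.mem_range.2 (by
      show cr K G v < _
      omega)
  · exact Finset.mem_range.2 (by
      show bl G v (cr K G v) < _
      omega)
  · exact Finset.mem_range.2 hl2
  · rw [Finset.mem_range]
    by_cases h : hasp (H1 K G) v
    · have h6 : (lab K k G v).2.2.1 = nc K G v := by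
        unfold lab
        rw [if_pos h]
      rw [h6]
      have h7 := h5 h
      have h8 := hτ h
      omega
    · have h6 : (lab K k G v).2.2.1 = 0 := by
        unfold lab
        rw [if_neg h]
      rw [h6]
      omega
  · rw [Finset.mem_range]
    by_cases h : hasp (H1 K G) v
    · have h6 : (lab K k G v).2.2.2.1 = lay G (anc K G v) (tt K G v) v := by
        unfold lab
        rw [if_pos h]
      rw [h6]
      have h7 := (h4 h).layle
      have h8 := hτ h
      have h9 : rad K G v ≤ 2 * (2 * Nat.log 2 n + 2) * Nat.log 2 n := by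
        unfold rad
        exact Nat.mul_le_mul (by omega) h8
      omega
    · have h6 : (lab K k G v).2.2.2.1 = 0 := by
        unfold lab
        rw [if_neg h]
      rw [h6]
      omega
  · rw [Finset.mem_range]
    by_cases h : hasp (H1 K G) v
    · have h6 : (lab K k G v).2.2.2.2 = cc k G (anc K G v) (tt K G v) v := by
        unfold lab
        rw [if_pos h]
      rw [h6]
      have := cc_le k G (anc K G v) (tt K G v) v
      omega
    · have h6 : (lab K k G v).2.2.2.2 = 0 := by
        unfold lab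
        rw [if_neg h]
      rw [h6]
      omega

end Pool.Agent.Helper63.PH
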