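import Pool.Agent.Helper63.PH.Alg
import Pool.Agent.Helper64.PG.M_LO2
import Pool.Agent.Helper8.PG.M_TAU

/-! # Project PH, module LOC: locality of the anchors, and the decomposition -/

set_option autoImplicit false

namespace Pool.Agent.Helper63.PH

open Pool.Agent.Helper63.PG hiding ci cj cl Bl isAnc anc near ng kap lab1 H1 tt Lab lab G3 Gm col
  AncS Vs UU LabF ColF
open Pool.Agent.Helper63.OC Pool.Agent.Helper24.OCM

theorem bl_LOC {G : SimpleGraph ℕ} {s v r : ℕ} (h : v ≤ s) : bl (pre G s) v r = bl G v r := by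
  unfold bl
  rw [bal_pre h]

theorem cr_LOC {K : ℕ} {G : SimpleGraph ℕ} {s v : ℕ} (h : v ≤ s) :
    cr K (pre G s) v = cr K G v := by
  unfold cr
  simp only [bl_LOC h]

theorem lab1_LOC {K : ℕ} {G : SimpleGraph ℕ} {s v : ℕ} (h : v ≤ s) :
    lab1 K (pre G s) v = lab1 K G v := by
  unfold lab1
  rw [cr_LOC h, bl_LOC h]

theorem H1_LOC {K : ℕ} {G : SimpleGraph ℕ} {s : ℕ} : H1 K (pre G s) = pre (H1 K G) s := by
  ext a b
  show (a ≤ s ∧ b ≤ s ∧ G.Adj a b) ∧ lab1 K (pre G s) a = lab1 K (pre G s) b ↔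
    a ≤ s ∧ b ≤ s ∧ (G.Adj a b ∧ lab1 K G a = lab1 K G b)
  constructor
  · rintro ⟨⟨h1, h2, h3⟩, h4⟩
    rw [lab1_LOC h1, lab1_LOC h2] at h4
    exact ⟨h1, h2, h3, h4⟩
  · rintro ⟨h1, h2, h3, h4⟩
    refine ⟨⟨h1, h2, h3⟩, ?_⟩
    rw [lab1_LOC h1, lab1_LOC h2]
    exact h4

theorem dec_LOC {G : SimpleGraph ℕ} {s τ q : ℕ} (h : τ ≤ s) : dec (pre G s) τ q = dec G τ q := by
  unfold dec
  rw [pre_pre h]

theorem dec_spec (hND : ∀ (G : SimpleGraph ℕ) (τ q : ℕ), ∃ p, NDec G τ q p)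
    (G : SimpleGraph ℕ) (τ q : ℕ) : NDec G τ q (dec G τ q) := by
  have h := hND (pre G τ) τ q
  have h1 : NDec (pre G τ) τ q (dec G τ q) := by
    unfold dec
    rw [dif_pos h]
    exact h.choose_spec
  refine ⟨fun a ha => ?_, fun a ha b hb hab => ?_⟩
  · obtain ⟨h2, h3, h4⟩ := h1.1 a ha
    exact ⟨h2, h3, (nr_pre le_rfl).1 h4⟩
  · exact h1.2 a ha b hb ((nr_pre le_rfl).2 hab)

theorem hLOC (K : ℕ) (G : SimpleGraph ℕ) (s : ℕ) :
    (∀ v ≤ s, hasp (H1 K G) v → anc K (pre G s) v = anc K G v ∧ nc K (pre G s) v = nc K G v) ∧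
      (∀ v ≤ s, lab1 K (pre G s) v = lab1 K G v) := by
  refine ⟨fun v hv hp => ?_, fun v hv => lab1_LOC hv⟩
  obtain ⟨-, h2, -, h4, -⟩ := Helper64.PG.hLO2 (H := H1 K G) (s := s)
  have htt : tt K (pre G s) v = tt K G v := by
    unfold tt
    rw [H1_LOC, h4 v hv]
  have hlt : tt K G v ≤ s := ((Helper8.PG.hTAU hp).2.2.1.le).trans hv
  constructor
  · unfold Pool.Agent.Helper63.PH.anc
    rw [htt, H1_LOC, h2 v hv, cr_LOC hv, dec_LOC hlt]
  · unfold nc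
    rw [htt, H1_LOC, h2 v hv, cr_LOC hv, dec_LOC hlt]

end Pool.Agent.Helper63.PH
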