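import Pool.Agent.Helper63.PH.Alg

/-!
# Module PRO: the on-line colouring is proper
-/

set_option autoImplicit false

namespace Pool.Agent.Helper63.PH

open Pool.Agent.Helper63.PG hiding ci cj cl Bl isAnc anc near ng kap lab1 H1 tt Lab lab G3 Gm col AncS Vs UU LabF ColF
open Pool.Agent.Helper63.OC Pool.Agent.Helper24.OCM

/-- MODULE PRO (the colouring is proper). -/
theorem hPRO (K k : ℕ)
    (hstep : ∀ (G : SimpleGraph ℕ) (w : ℕ), G.Colorable k → NOH G → G.CliqueFree (w + 3) →
      NOH (Gm K k G) ∧ (Gm K k G).CliqueFree (w + 2))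
    (hM : ∀ (G : SimpleGraph ℕ) (c0 : ℕ → List (Lab × List (ℕ × ℕ))), G.Colorable k → NOH G →
      (∀ u v, (Gm K k G).Adj u v → c0 u ≠ c0 v) → IsMeyniel (mono (G3 K k G) c0)) :
    ∀ (w : ℕ) (G : SimpleGraph ℕ), G.Colorable k → NOH G → G.CliqueFree (w + 1) →
      ∀ a b, G.Adj a b → col K k w G a ≠ col K k w G b
  | 0, G, _, _, hG, a, b, _ => by
    exfalso
    exact hG {a} ⟨by simp, by simp⟩
  | 1, G, _, _, hG, a, b, hab => by
    exfalso
    refine hG {a, b} ⟨?_, ?_⟩
    · intro x hx y hy hxy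
      simp only [Finset.coe_insert, Finset.coe_singleton, Set.mem_insert_iff,
        Set.mem_singleton_iff] at hx hy
      rcases hx with rfl | rfl <;> rcases hy with rfl | rfl
      · exact absurd rfl hxy
      · exact hab
      · exact hab.symm
      · exact absurd rfl hxy
    · exact Finset.card_pair hab.ne
  | (w + 2), G, hc, hN, hG, a, b, hab => by
    intro heq
    rw [col, col, List.cons.injEq, Prod.mk.injEq] at heq
    obtain ⟨⟨h1, h2⟩, h3⟩ := heq
    obtain ⟨hN', hF'⟩ := hstep G w hc hN hG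
    have hle3 : G3 K k G ≤ G := fun u v huv => huv.1
    have hle : Gm K k G ≤ G := fun u v huv => hle3 huv.1
    have hc' : (Gm K k G).Colorable k := hc.mono_left hle
    have hp := hPRO K k hstep hM (w + 1) (Gm K k G) hc' hN' hF'
    have hMey := hM G (col K k (w + 1) (Gm K k G)) hc hN hp
    have hleM : mono (G3 K k G) (col K k (w + 1) (Gm K k G)) ≤ G :=
      fun u v huv => hle3 huv.1
    have hfree : (mono (G3 K k G) (col K k (w + 1) (Gm K k G))).CliqueFree (k + 1) :=
      (hc.mono_left hleM).cliqueFree (by omega)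
    exact fcol_proper k _ hMey hfree a b ⟨⟨hab, h1⟩, h3⟩ h2

end Pool.Agent.Helper63.PH
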