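import Pool.Agent.Helper63.PH.Alg

set_option autoImplicit false

namespace Pool.Agent.Helper63.PH

open Pool.Agent.Helper63.PG hiding ci cj cl Bl isAnc anc near ng kap lab1 H1 tt Lab lab G3 Gm col AncS Vs UU LabF ColF
open Pool.Agent.Helper63.OC Pool.Agent.Helper24.OCM

theorem sam_aux {K k : ℕ} {G : SimpleGraph ℕ} (hA : AncS K G) (hT : TauS (H1 K G)) {u v : ℕ}
    (huv : u < v) (hadj : (G3 K k G).Adj u v) :
    hasp (H1 K G) u ∧ hasp (H1 K G) v ∧ anc K G u = anc K G v ∧ tt K G u = tt K G v ∧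
    lay G (anc K G u) (tt K G u) u = lay G (anc K G v) (tt K G v) v ∧
    cc k G (anc K G u) (tt K G u) u = cc k G (anc K G v) (tt K G v) v := by
  obtain ⟨hG, hlab⟩ := hadj
  have h1 : lab1 K G u = lab1 K G v := congrArg (fun p : Lab => p.1) hlab
  have h2 : lab2 (H1 K G) u = lab2 (H1 K G) v := congrArg (fun p : Lab => p.2.1) hlab
  have h3 := congrArg (fun p : Lab => p.2.2) hlab
  obtain ⟨hu, hv, ht⟩ := hT.2 u v huv ⟨hG, h1⟩ h2
  simp only [lab, if_pos hu, if_pos hv, Prod.mk.injEq] at h3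
  have ha := hA.2 u v huv ⟨hG, h1⟩ h2 h3.1
  exact ⟨hu, hv, ha, ht, h3.2.1, h3.2.2⟩

/-- MODULE SAM. -/
theorem hSAM {K k : ℕ} {G : SimpleGraph ℕ} (hA : AncS K G) (hT : TauS (H1 K G)) {u v : ℕ}
    (hadj : (G3 K k G).Adj u v) :
    hasp (H1 K G) u ∧ hasp (H1 K G) v ∧ anc K G u = anc K G v ∧ tt K G u = tt K G v ∧
    lay G (anc K G u) (tt K G u) u = lay G (anc K G v) (tt K G v) v ∧
    cc k G (anc K G u) (tt K G u) u = cc k G (anc K G v) (tt K G v) v := by
  rcases Nat.lt_trichotomy u v with h | h | h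
  · exact sam_aux hA hT h hadj
  · subst h
    exact absurd hadj ((G3 K k G).loopless.irrefl _)
  · obtain ⟨a, b, c, d, e, f⟩ := sam_aux hA hT h hadj.symm
    exact ⟨b, a, c.symm, d.symm, e.symm, f.symm⟩

end Pool.Agent.Helper63.PH
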