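import Pool.Agent.Helper63.PH.Alg

set_option autoImplicit false

namespace Pool.Agent.Helper63.PH

open Pool.Agent.Helper63.PG hiding ci cj cl Bl isAnc anc near ng kap lab1 H1 tt Lab lab G3 Gm col AncS Vs UU LabF ColF
open Pool.Agent.Helper63.OC Pool.Agent.Helper24.OCM

/-- MODULE VSP. -/
theorem hVSP {K k : ℕ} {G : SimpleGraph ℕ} (hA : AncS K G) (hT : TauS (H1 K G)) {v : ℕ}
    (h : hasp (H1 K G) v) : Vs K k G v := by
  obtain ⟨⟨hlt, hadj⟩, hle, htlt⟩ := hT.1 v h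
  obtain ⟨hG, -⟩ := hadj
  obtain ⟨hale, hanr⟩ := hA.1 v h
  have hnr : nr G (tt K G v) (anc K G v) (fn (H1 K G) v) (rad K G v) := nr_symm hanr
  have hmem := Nat.sInf_mem (s := {r | ∃ w, w ≤ tt K G v ∧ G.Adj v w ∧
    nr G (tt K G v) (anc K G v) w r}) ⟨_, _, hle, hG, hnr⟩
  obtain ⟨w', h1, h2, h3⟩ := hmem
  have hmem2 := Nat.sInf_mem (s := {c | ∃ w, w ≤ tt K G v ∧ G.Adj v w ∧
    nr G (tt K G v) (anc K G v) w (lay G (anc K G v) (tt K G v) v) ∧ kc k G (tt K G v) w = c})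
    ⟨_, w', h1, h2, h3, rfl⟩
  obtain ⟨w2, g1, g2, g3, g4⟩ := hmem2
  refine ⟨hale, htlt, ?_, ?_, ⟨w2, g1, g2, g3, g4⟩⟩
  · exact Nat.sInf_le ⟨_, hle, hG, hnr⟩
  · intro w r hw1 hw2 hw3
    exact Nat.sInf_le ⟨w, hw1, hw2, hw3⟩

end Pool.Agent.Helper63.PH
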