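import Pool.Agent.Helper63.PG.Asm2
import Pool.Agent.Helper63.PH.M_VSP
import Pool.Agent.Helper63.PH.M_SAM
import Pool.Agent.Helper63.PH.M_GNO
import Pool.Agent.Helper63.PH.M_GCL
import Pool.Agent.Helper63.PH.M_GMR
import Pool.Agent.Helper63.PH.M_LAY
import Pool.Agent.Helper63.PH.M_GME
import Pool.Agent.Helper63.PH.M_PRO
import Pool.Agent.Helper63.PH.M_CLO3
import Pool.Agent.Helper63.PH.M_LOC
import Pool.Agent.Helper63.PH.M_LMM
import Pool.Agent.Helper63.PH.M_CMM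
import Pool.Agent.Helper71.PH.M_ANC

/-! # Assembly of the polylogarithmic bound -/

set_option autoImplicit false

namespace Pool.Agent.Helper63.PH

open Pool.Agent.Helper63.PG hiding ci cj cl Bl isAnc anc near ng kap lab1 H1 tt Lab lab G3 Gm col
  AncS Vs UU LabF ColF kap_lt lab_in col_local proper algo algo_eq main_of proper' main vs same ancS
open Pool.Agent.Helper63.OC Pool.Agent.Helper24.OCM

section

variable (hND : ∀ (G : SimpleGraph ℕ) (τ q : ℕ), ∃ p, NDec G τ q p)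
  (hBL : ∀ (K : ℕ) (G : SimpleGraph ℕ) (v : ℕ), cr K G v ≤ 2 * Nat.log 2 (v + 1) ∧
    bl G v (cr K G v) = bl G v (cr K G v + 2) ∧ bl G v (cr K G v) ≤ Nat.log 2 (v + 1))

include hND hBL

theorem vs (K k : ℕ) (G : SimpleGraph ℕ) (v : ℕ) (h : hasp (H1 K G) v) : Vs K k G v :=
  hVSP (Helper71.PH.hANC hND hBL K G (tauS _)) (tauS _) h

theorem same (K k : ℕ) (G : SimpleGraph ℕ) (u v : ℕ) (hadj : (G3 K k G).Adj u v) :
    hasp (H1 K G) u ∧ hasp (H1 K G) v ∧ anc K G u = anc K G v ∧ tt K G u = tt K G v ∧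
    lay G (anc K G u) (tt K G u) u = lay G (anc K G v) (tt K G v) v ∧
    cc k G (anc K G u) (tt K G u) u = cc k G (anc K G v) (tt K G v) v :=
  hSAM (Helper71.PH.hANC hND hBL K G (tauS _)) (tauS _) hadj

theorem lab_in {n : ℕ} (K k : ℕ) (G : SimpleGraph ℕ) {v : ℕ} (hv : v < n) :
    lab K k G v ∈ LabF k (Nat.log 2 n) := by
  obtain ⟨h1, -, h2⟩ := hBL K G v
  refine hLMM hv h1 h2 (fun h => (Helper8.PG.hTAU h).2.2.2.2.1) (fun h => vs hND hBL K k G v h)
    (fun h => ?_)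
  have hfn : fn (H1 K G) v ≤ tt K G v := (Helper8.PG.hTAU h).2.1
  exact ((dec_spec hND G (tt K G v) (2 * cr K G v)).1 _ hfn).1

theorem col_local (K k : ℕ) (w : ℕ) (G : SimpleGraph ℕ) (s t : ℕ) (h : t ≤ s) :
    col K k w (pre G s) t = col K k w G t := by
  refine hCLO3 K k (fun G s => hLOC K G s) ?_ ?_ ?_ w G s t h
  · intro H s
    obtain ⟨h1, -, -, h4, h5⟩ := Helper64.PG.hLO2 (H := H) (s := s)
    exact ⟨h1, h4, h5⟩
  · intro G v hv
    exact vs hND hBL K k G v hv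
  · intro G u v huv
    obtain ⟨h1, h2, -⟩ := same hND hBL K k G u v huv
    exact ⟨h1, h2⟩

theorem proper (K k w : ℕ) (G : SimpleGraph ℕ) (hc : G.Colorable k) (hN : NOH G)
    (hF : G.CliqueFree (w + 1)) (a b : ℕ) (hab : G.Adj a b) :
    col K k w G a ≠ col K k w G b := by
  have hLay : ∀ (K k : ℕ) (G : SimpleGraph ℕ), G.Colorable k → NOH G →
      ∀ x τ i c, Lay G {w | w ≤ τ ∧ nr G τ x w i}
        {w | w ≤ τ ∧ nr G τ x w (i + 1) ∧ ¬ nr G τ x w i ∧ kc k G τ w = c}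
        (UU K k G x τ (i + 1) c) :=
    fun K k G hc hN x τ i c => hLAY hc hN (fun v hv => vs hND hBL K k G v hv) x τ i c
  refine hPRO K k ?_ ?_ w G hc hN hF a b hab
  · intro G w hc hN hF
    exact ⟨hGNO hN oneLayer (same hND hBL K k G) (hLay K k G hc hN)
        (hGMR (fun v hv => vs hND hBL K k G v hv)),
      hGCL hF oneLayer (same hND hBL K k G) (hLay K k G hc hN)
        (hGMR (fun v hv => vs hND hBL K k G v hv))⟩
  · intro G c0 hc hN hp
    exact hGME c0 hp oneLayer (same hND hBL K k G) (hLay K k G hc hN)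
      (hGMR (fun v hv => vs hND hBL K k G v hv))

end

/-- the on-line algorithm -/
noncomputable def algo (k : ℕ) (m : ℕ) (H : SimpleGraph (Fin m)) : ℕ :=
  Encodable.encode (col 0 k k (liftG H) (m - 1))

section

variable (hND : ∀ (G : SimpleGraph ℕ) (τ q : ℕ), ∃ p, NDec G τ q p)
  (hBL : ∀ (K : ℕ) (G : SimpleGraph ℕ) (v : ℕ), cr K G v ≤ 2 * Nat.log 2 (v + 1) ∧
    bl G v (cr K G v) = bl G v (cr K G v + 2) ∧ bl G v (cr K G v) ≤ Nat.log 2 (v + 1))
  (hNUM : ∃ p : ℕ → ℕ, ∀ k : ℕ, ∃ N0 : ℕ, ∀ n : ℕ, N0 ≤ n →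
    ((((2 * Nat.log 2 n + 3) * (Nat.log 2 n + 1) * ((Nat.log 2 n + 2) * ((Nat.log 2 n + 1) *
      ((2 * (2 * Nat.log 2 n + 2) * Nat.log 2 n + 1) * (k + 1)))) *
        (2 * (Nat.log 2 n + 1)) ^ (k - 1)) ^ (k - 1) : ℕ) : ℝ) < (Real.log (n : ℝ)) ^ (p k))

include hND hBL

theorem algo_eq {n k : ℕ} (G : SimpleGraph (Fin n)) (i : Fin n) :
    algo k (i.val + 1) (SimpleGraph.comap (Fin.castLE (Nat.succ_le_of_lt i.isLt)) G) =
      Encodable.encode (col 0 k k (liftG G) i.val) := by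
  unfold algo
  rw [liftG_comap G i.val i.isLt]
  congr 1
  exact col_local hND hBL 0 k _ _ _ _ le_rfl

include hNUM

/-- the main theorem -/
theorem main : ∃ p : ℕ → ℕ, ∀ k : ℕ, ∃ N0 : ℕ, ∀ n : ℕ, N0 ≤ n →
    ∃ A : (m : ℕ) → SimpleGraph (Fin m) → ℕ,
      ∀ G : SimpleGraph (Fin n), G.Colorable k → NOH (liftG G) →
      (∀ i j : Fin n, G.Adj i j →
        A (i.val + 1) (SimpleGraph.comap (Fin.castLE (Nat.succ_le_of_lt i.isLt)) G) ≠
        A (j.val + 1) (SimpleGraph.comap (Fin.castLE (Nat.succ_le_of_lt j.isLt)) G)) ∧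
      (((Finset.univ.image (fun i : Fin n =>
        A (i.val + 1) (SimpleGraph.comap (Fin.castLE (Nat.succ_le_of_lt i.isLt)) G))).card : ℝ)
        < (Real.log (n : ℝ)) ^ (p k)) := by
  obtain ⟨p, hp⟩ := hNUM
  refine ⟨p, fun k => ?_⟩
  obtain ⟨N0, hN0⟩ := hp k
  refine ⟨max N0 1, fun n hn => ?_⟩
  have h2 := hN0 n (le_trans (le_max_left _ _) hn)
  have hn1 : 1 ≤ n := le_trans (le_max_right _ _) hn
  refine ⟨algo k, fun G hG hN => ?_⟩
  have hk : 1 ≤ k := by
    rcases Nat.eq_zero_or_pos k with h | h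
    · subst h
      obtain ⟨c⟩ := hG
      exact (c ⟨0, hn1⟩).elim0
    · exact h
  have hc := liftG_colorable G hk hG
  have hF := liftG_free G hk hG
  constructor
  · intro i j hij
    rw [algo_eq hND hBL, algo_eq hND hBL]
    intro h
    have h' := Encodable.encode_injective h
    exact proper hND hBL _ k k _ hc hN hF i.val j.val ⟨i.isLt, j.isLt, hij⟩ h'
  · obtain ⟨h3, h4⟩ := hCMM 0 k n (fun G v hv => lab_in hND hBL 0 k G hv)
    have hsub : (Finset.univ.image (fun i : Fin n =>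
        algo k (i.val + 1)
          (SimpleGraph.comap (Fin.castLE (Nat.succ_le_of_lt i.isLt)) G))) ⊆
        (ColF k n (k - 1)).image Encodable.encode := by
      intro x hx
      rw [Finset.mem_image] at hx
      obtain ⟨i, -, rfl⟩ := hx
      rw [algo_eq hND hBL]
      exact Finset.mem_image_of_mem _ (h3 k _ i.val i.isLt)
    refine lt_of_le_of_lt ?_ h2
    exact_mod_cast (Finset.card_le_card hsub).trans (Finset.card_image_le.trans (h4 (k - 1)))

end

end Pool.Agent.Helper63.PH
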