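import Pool.Agent.Helper63.PH.Alg

/-! # Project PH, module BL: the ball lemma -/

set_option autoImplicit false

namespace Pool.Agent.Helper63.PH

open Pool.Agent.Helper63.PG hiding ci cj cl Bl isAnc anc near ng kap lab1 H1 tt Lab lab G3 Gm col
  AncS Vs UU LabF ColF
open Pool.Agent.Helper63.OC Pool.Agent.Helper24.OCM

theorem bl_mono {G : SimpleGraph ℕ} {v r r' : ℕ} (h : r ≤ r') : bl G v r ≤ bl G v r' := by
  unfold bl
  apply Nat.log_mono_right
  exact Set.ncard_le_ncard (fun u hu => nr_mono hu h) (bal_fin G v r')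

theorem bl_le {G : SimpleGraph ℕ} {v r : ℕ} : bl G v r ≤ Nat.log 2 (v + 1) := by
  unfold bl
  apply Nat.log_mono_right
  calc (bal G v r).ncard ≤ (Set.Iic v).ncard :=
        Set.ncard_le_ncard (bal_sub G v _) (Set.finite_Iic v)
    _ = v + 1 := by
        have h5 : (Set.Iic v) = ((Finset.Iic v : Finset ℕ) : Set ℕ) := by
          rw [Finset.coe_Iic]
        rw [h5, Set.ncard_coe_finset, Nat.card_Iic]

theorem hBL (K : ℕ) (G : SimpleGraph ℕ) (v : ℕ) : cr K G v ≤ 2 * Nat.log 2 (v + 1) ∧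
    bl G v (cr K G v) = bl G v (cr K G v + 2) ∧ bl G v (cr K G v) ≤ Nat.log 2 (v + 1) := by
  have h : ∃ i ≤ Nat.log 2 (v + 1), bl G v (2 * i) = bl G v (2 * i + 2) := by
    by_contra hc
    push Not at hc
    have h1 : ∀ i ≤ Nat.log 2 (v + 1) + 1, i ≤ bl G v (2 * i) := by
      intro i
      induction i with
      | zero => intro _; exact Nat.zero_le _
      | succ i ih =>
        intro hi
        have h2 := ih (by omega)
        have h3 := hc i (by omega)
        have h4 : bl G v (2 * i) ≤ bl G v (2 * i + 2) := bl_mono (by omega)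
        have h5 : 2 * (i + 1) = 2 * i + 2 := by ring
        rw [h5]
        omega
    have h2 := h1 (Nat.log 2 (v + 1) + 1) le_rfl
    have h3 := bl_le (G := G) (v := v) (r := 2 * (Nat.log 2 (v + 1) + 1))
    omega
  obtain ⟨i, hi, h2⟩ := h
  have hmem : (2 * i) ∈ {r | bl G v r = bl G v (r + 2)} := h2
  refine ⟨(Nat.sInf_le hmem).trans (by omega), ?_, bl_le⟩
  exact Nat.sInf_mem (s := {r | bl G v r = bl G v (r + 2)}) ⟨_, hmem⟩

end Pool.Agent.Helper63.PH
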