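import Pool.Agent.Helper63.PH.Alg

/-! # Project PH, module ND: static network decomposition (Linial-Saks) -/

set_option autoImplicit false

namespace Pool.Agent.Helper63.PH

open Pool.Agent.Helper63.PG hiding ci cj cl Bl isAnc anc near ng kap lab1 H1 tt Lab lab G3 Gm col
  AncS Vs UU LabF ColF
open Pool.Agent.Helper63.OC Pool.Agent.Helper24.OCM

section

open Classical

/-- the growing sets around `w` in `Z` -/
noncomputable def Zs (G : SimpleGraph ℕ) (τ q : ℕ) (Z : Finset ℕ) (w : ℕ) : ℕ → Finset ℕ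
  | 0 => {w}
  | (k + 1) => Z.filter (fun a => ∃ b ∈ Zs G τ q Z w k, nr G τ b a q)

theorem Zs_sub {G : SimpleGraph ℕ} {τ q : ℕ} {Z : Finset ℕ} {w : ℕ} (hw : w ∈ Z) (k : ℕ) :
    Zs G τ q Z w k ⊆ Z := by
  cases k with
  | zero =>
    intro a ha
    rw [Zs, Finset.mem_singleton] at ha
    rw [ha]
    exact hw
  | succ k =>
    rw [Zs]
    exact Finset.filter_subset _ _

theorem Zs_mono {G : SimpleGraph ℕ} {τ q : ℕ} {Z : Finset ℕ} {w : ℕ} (hw : w ∈ Z) (k : ℕ) :
    Zs G τ q Z w k ⊆ Zs G τ q Z w (k + 1) := by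
  intro a ha
  rw [Zs, Finset.mem_filter]
  exact ⟨Zs_sub hw k ha, a, ha, nr_refl _ _ _ _⟩

theorem Zs_nr {G : SimpleGraph ℕ} {τ q : ℕ} {Z : Finset ℕ} {w : ℕ} (k : ℕ) :
    ∀ a ∈ Zs G τ q Z w k, nr G τ w a (q * k) := by
  induction k with
  | zero =>
    intro a ha
    rw [Zs, Finset.mem_singleton] at ha
    rw [ha]
    exact nr_refl _ _ _ _
  | succ k ih =>
    intro a ha
    rw [Zs, Finset.mem_filter] at ha
    obtain ⟨-, b, hb, hba⟩ := ha
    exact nr_mono (nr_trans (ih b hb) hba) (by rw [Nat.mul_succ])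

theorem one_cluster (G : SimpleGraph ℕ) (τ q : ℕ) (Z : Finset ℕ) (hZ : ∀ a ∈ Z, a ≤ τ) (w : ℕ)
    (hw : w ∈ Z) : ∃ C D : Finset ℕ, w ∈ C ∧ C ⊆ D ∧ D ⊆ Z ∧ D.card ≤ 2 * C.card ∧
      (∀ a ∈ C, nr G τ w a (q * Nat.log 2 (τ + 1))) ∧
      ∀ a ∈ C, ∀ b ∈ Z, nr G τ a b q → b ∈ D := by
  have hcard : Z.card ≤ τ + 1 := by
    have h1 : Z ⊆ Finset.range (τ + 1) := fun a ha => Finset.mem_range.2 (by have := hZ a ha; omega)
    simpa using Finset.card_le_card h1
  have h : ∃ k ≤ Nat.log 2 (τ + 1), (Zs G τ q Z w (k + 1)).card ≤ 2 * (Zs G τ q Z w k).card := by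
    by_contra hc
    push Not at hc
    have h1 : ∀ k ≤ Nat.log 2 (τ + 1) + 1, 2 ^ k ≤ (Zs G τ q Z w k).card := by
      intro k
      induction k with
      | zero =>
        intro _
        rw [Zs, Finset.card_singleton, pow_zero]
      | succ k ih =>
        intro hk
        have h2 := ih (by omega)
        have h3 := hc k (by omega)
        rw [pow_succ]
        omega
    have h2 := h1 _ le_rfl
    have h3 : (Zs G τ q Z w (Nat.log 2 (τ + 1) + 1)).card ≤ Z.card :=
      Finset.card_le_card (Zs_sub hw _)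
    have h4 : τ + 1 < 2 ^ (Nat.log 2 (τ + 1) + 1) := Nat.lt_pow_succ_log_self one_lt_two _
    omega
  obtain ⟨k, hk, h1⟩ := h
  have hw0 : ∀ j, w ∈ Zs G τ q Z w j := by
    intro j
    induction j with
    | zero => rw [Zs]; exact Finset.mem_singleton_self w
    | succ j ih => exact Zs_mono hw j ih
  refine ⟨Zs G τ q Z w k, Zs G τ q Z w (k + 1), hw0 k, Zs_mono hw k, Zs_sub hw _, h1,
    fun a ha => nr_mono (Zs_nr k a ha) (Nat.mul_le_mul_left _ hk), fun a ha b hb hab => ?_⟩
  rw [Zs, Finset.mem_filter]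
  exact ⟨hb, a, ha, hab⟩

theorem one_class (G : SimpleGraph ℕ) (τ q : ℕ) (m : ℕ) : ∀ (Z : Finset ℕ), Z.card ≤ m →
    (∀ a ∈ Z, a ≤ τ) → ∃ (S : Finset ℕ) (f : ℕ → ℕ), S ⊆ Z ∧ Z.card ≤ 2 * S.card ∧
      (∀ a ∈ S, f a ≤ τ ∧ nr G τ a (f a) (q * Nat.log 2 (τ + 1))) ∧
      ∀ a ∈ S, ∀ b ∈ S, nr G τ a b q → f a = f b := by
  induction m with
  | zero =>
    intro Z hZ _
    refine ⟨∅, fun a => a, Finset.empty_subset _, by simpa using hZ, ?_, ?_⟩
    · intro a ha
      exact absurd ha (Finset.notMem_empty a)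
    · intro a ha
      exact absurd ha (Finset.notMem_empty a)
  | succ m ih =>
    intro Z hZ hle
    rcases Z.eq_empty_or_nonempty with h0 | ⟨w, hw⟩
    · subst h0
      refine ⟨∅, fun a => a, Finset.empty_subset _, by simp, ?_, ?_⟩
      · intro a ha
        exact absurd ha (Finset.notMem_empty a)
      · intro a ha
        exact absurd ha (Finset.notMem_empty a)
    · obtain ⟨C, D, hwC, hCD, hDZ, hcard, hnr, hcl⟩ := one_cluster G τ q Z hle w hw
      have hDpos : 0 < D.card := Finset.card_pos.2 ⟨w, hCD hwC⟩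
      have hsd : (Z \ D).card + D.card = Z.card := Finset.card_sdiff_add_card_eq_card hDZ
      obtain ⟨S, f, hSZ, hS2, hSf, hSc⟩ := ih (Z \ D) (by omega)
        (fun a ha => hle a (Finset.mem_sdiff.1 ha).1)
      have hdisj : Disjoint C S := by
        rw [Finset.disjoint_left]
        intro a ha ha'
        exact (Finset.mem_sdiff.1 (hSZ ha')).2 (hCD ha)
      refine ⟨C ∪ S, fun a => if a ∈ C then w else f a, ?_, ?_, ?_, ?_⟩
      · apply Finset.union_subset (hCD.trans hDZ)
        exact hSZ.trans Finset.sdiff_subset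
      · rw [Finset.card_union_of_disjoint hdisj]
        omega
      · intro a ha
        by_cases h : a ∈ C
        · simp only [if_pos h]
          exact ⟨hle w hw, nr_symm (hnr a h)⟩
        · simp only [if_neg h]
          exact hSf a ((Finset.mem_union.1 ha).resolve_left h)
      · intro a ha b hb hab
        by_cases h : a ∈ C <;> by_cases h' : b ∈ C
        · simp only [if_pos h, if_pos h']
        · exfalso
          have hbS := hSZ ((Finset.mem_union.1 hb).resolve_left h')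
          exact (Finset.mem_sdiff.1 hbS).2 (hcl a h b (Finset.mem_sdiff.1 hbS).1 hab)
        · exfalso
          have haS := hSZ ((Finset.mem_union.1 ha).resolve_left h)
          exact (Finset.mem_sdiff.1 haS).2 (hcl b h' a (Finset.mem_sdiff.1 haS).1 (nr_symm hab))
        · simp only [if_neg h, if_neg h']
          exact hSc a ((Finset.mem_union.1 ha).resolve_left h) b
            ((Finset.mem_union.1 hb).resolve_left h') hab

theorem all_classes (G : SimpleGraph ℕ) (τ q : ℕ) (m : ℕ) : ∀ (Z : Finset ℕ), Z.card < 2 ^ m →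
    (∀ a ∈ Z, a ≤ τ) → ∃ p : ℕ → ℕ × ℕ,
      (∀ a ∈ Z, (p a).1 < m ∧ (p a).2 ≤ τ ∧ nr G τ a (p a).2 (q * Nat.log 2 (τ + 1))) ∧
      ∀ a ∈ Z, ∀ b ∈ Z, nr G τ a b q → (p a).1 = (p b).1 → (p a).2 = (p b).2 := by
  induction m with
  | zero =>
    intro Z hZ _
    have h0 : Z = ∅ := by
      rw [pow_zero] at hZ
      exact Finset.card_eq_zero.1 (by omega)
    subst h0
    refine ⟨fun _ => (0, 0), ?_, ?_⟩
    · intro a ha
      exact absurd ha (Finset.notMem_empty a)
    · intro a ha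
      exact absurd ha (Finset.notMem_empty a)
  | succ m ih =>
    intro Z hZ hle
    obtain ⟨S, f, hSZ, hS2, hSf, hSc⟩ := one_class G τ q _ Z le_rfl hle
    have hsd : (Z \ S).card + S.card = Z.card := Finset.card_sdiff_add_card_eq_card hSZ
    rw [pow_succ] at hZ
    obtain ⟨p, hp1, hp2⟩ := ih (Z \ S) (by omega) (fun a ha => hle a (Finset.mem_sdiff.1 ha).1)
    refine ⟨fun a => if a ∈ S then (m, f a) else p a, ?_, ?_⟩
    · intro a ha
      by_cases h : a ∈ S
      · simp only [if_pos h]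
        exact ⟨by omega, (hSf a h).1, (hSf a h).2⟩
      · simp only [if_neg h]
        obtain ⟨h1, h2, h3⟩ := hp1 a (Finset.mem_sdiff.2 ⟨ha, h⟩)
        exact ⟨by omega, h2, h3⟩
    · intro a ha b hb hab hcl
      by_cases h : a ∈ S <;> by_cases h' : b ∈ S
      · simp only [if_pos h, if_pos h']
        exact hSc a h b h' hab
      · exfalso
        simp only [if_pos h, if_neg h'] at hcl
        have := (hp1 b (Finset.mem_sdiff.2 ⟨hb, h'⟩)).1
        omega
      · exfalso
        simp only [if_neg h, if_pos h'] at hcl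
        have := (hp1 a (Finset.mem_sdiff.2 ⟨ha, h⟩)).1
        omega
      · simp only [if_neg h, if_neg h'] at hcl ⊢
        exact hp2 a (Finset.mem_sdiff.2 ⟨ha, h⟩) b (Finset.mem_sdiff.2 ⟨hb, h'⟩) hab hcl

end

theorem hND (G : SimpleGraph ℕ) (τ q : ℕ) : ∃ p, NDec G τ q p := by
  obtain ⟨p, h1, h2⟩ := all_classes G τ q (Nat.log 2 (τ + 1) + 1) (Finset.range (τ + 1))
    (by
      rw [Finset.card_range]
      exact Nat.lt_pow_succ_log_self one_lt_two _)
    (fun a ha => by have := Finset.mem_range.1 ha; omega)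
  refine ⟨p, fun a ha => ?_, fun a ha b hb hab hc => ?_⟩
  · obtain ⟨h3, h4, h5⟩ := h1 a (Finset.mem_range.2 (by omega))
    exact ⟨by omega, h4, h5⟩
  · exact h2 a (Finset.mem_range.2 (by omega)) b (Finset.mem_range.2 (by omega)) hab hc

end Pool.Agent.Helper63.PH
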