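import Mathlib

/-! # Project PH: the number of colours in terms of `log n`, explicit form -/

set_option autoImplicit false

namespace Pool.Agent.Helper63.PH

theorem log2_le {n : ℕ} (hn : 3 ≤ n) : (Nat.log 2 n : ℝ) ≤ (3 / 2) * Real.log n := by
  have h1 : (2 : ℝ) ^ (Nat.log 2 n) ≤ n := by
    exact_mod_cast Nat.pow_log_le_self 2 (by omega)
  have hpos : (0 : ℝ) < 2 ^ (Nat.log 2 n) := by positivity
  have h2 := Real.log_le_log hpos h1
  rw [Real.log_pow] at h2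
  have h3 := Real.log_two_gt_d9
  have h4 : (0:ℝ) ≤ Nat.log 2 n := Nat.cast_nonneg _
  nlinarith

theorem one_le_log {n : ℕ} (hn : 3 ≤ n) : 1 ≤ Real.log n := by
  have h1 : Real.exp 1 ≤ n := by
    have := Real.exp_one_lt_d9
    have h2 : (3 : ℝ) ≤ n := by exact_mod_cast hn
    linarith
  have h2 := Real.log_le_log (Real.exp_pos 1) h1
  rwa [Real.log_exp] at h2

theorem numE (k n : ℕ) (hn : 3 ≤ n) :
    ((((2 * Nat.log 2 n + 3) * (Nat.log 2 n + 1) * ((Nat.log 2 n + 2) * ((Nat.log 2 n + 1) *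
      ((2 * (2 * Nat.log 2 n + 2) * Nat.log 2 n + 1) * (k + 1)))) *
        (2 * (Nat.log 2 n + 1)) ^ (k - 1)) ^ (k - 1) : ℕ) : ℝ) ≤
    (2100 * (k + 1) * 5 ^ k) ^ (k - 1) * (Real.log (n : ℝ)) ^ ((k - 1) * (k + 5)) := by
  rcases Nat.eq_zero_or_pos k with hk | hk
  · subst hk
    simp
  have hl := log2_le hn
  have h1 := one_le_log hn
  set L := Real.log (n : ℝ) with hL
  set l := Nat.log 2 n with hl'
  have hl0 : (0 : ℝ) ≤ l := Nat.cast_nonneg _
  push_cast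
  rw [pow_mul', ← mul_pow]
  apply pow_le_pow_left₀ (by positivity)
  have e1 : (2 * (l:ℝ) + 3) ≤ 6 * L := by linarith
  have e2 : ((l:ℝ) + 1) ≤ (5/2) * L := by linarith
  have e3 : ((l:ℝ) + 2) ≤ (7/2) * L := by linarith
  have e4 : (2 * (2 * (l:ℝ) + 2) * l + 1) ≤ 16 * L ^ 2 := by
    have : (2 * (2 * (l:ℝ) + 2) * l + 1) = (2 * l + 1) ^ 2 := by ring
    rw [this]
    have h5 : (2 * (l:ℝ) + 1) ≤ 4 * L := by linarith
    calc (2 * (l:ℝ) + 1) ^ 2 ≤ (4 * L) ^ 2 := pow_le_pow_left₀ (by positivity) h5 2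
      _ = 16 * L ^ 2 := by ring
  have e5 : (2 * ((l:ℝ) + 1)) ^ (k - 1) ≤ 5 ^ k * L ^ (k - 1) := by
    calc (2 * ((l:ℝ) + 1)) ^ (k - 1) ≤ (5 * L) ^ (k - 1) :=
          pow_le_pow_left₀ (by positivity) (by linarith) _
      _ = 5 ^ (k - 1) * L ^ (k - 1) := by rw [mul_pow]
      _ ≤ 5 ^ k * L ^ (k - 1) := by
          apply mul_le_mul_of_nonneg_right _ (by positivity)
          exact pow_le_pow_right₀ (by norm_num) (by omega)
  have e6 : L ^ (k + 5) = L ^ 6 * L ^ (k - 1) := by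
    rw [← pow_add]
    congr 1
    omega
  calc (2 * (l:ℝ) + 3) * (l + 1) * ((l + 2) * ((l + 1) * ((2 * (2 * l + 2) * l + 1) * (k + 1))))
        * (2 * ((l:ℝ) + 1)) ^ (k - 1)
      ≤ (6 * L) * ((5/2) * L) * (((7/2) * L) * (((5/2) * L) * ((16 * L ^ 2) * (k + 1))))
        * (5 ^ k * L ^ (k - 1)) := by gcongr
    _ = 2100 * (k + 1) * 5 ^ k * L ^ (k + 5) := by
        rw [e6]
        ring

end Pool.Agent.Helper63.PH
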