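import Pool.Agent.Helper63.PH.Asm
import Pool.Agent.Helper63.PH.M_ND
import Pool.Agent.Helper63.PH.M_BL
import Pool.Agent.Helper63.PH.M_NUE

/-! # Explicit form of the polylogarithmic bound -/

set_option autoImplicit false

namespace Pool.Agent.Helper63.PH

open Pool.Agent.Helper63.PG hiding ci cj cl Bl isAnc anc near ng kap lab1 H1 tt Lab lab G3 Gm col
  AncS Vs UU LabF ColF kap_lt lab_in col_local proper algo algo_eq main_of proper' main vs same ancS
open Pool.Agent.Helper63.OC Pool.Agent.Helper24.OCM

/-- explicit number of colours; the algorithm does not depend on `n` -/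
theorem explicit (k : ℕ) (n : ℕ) (hn : 3 ≤ n) (G : SimpleGraph (Fin n)) (hG : G.Colorable k)
    (hN : NOH (liftG G)) :
    (∀ i j : Fin n, G.Adj i j →
      algo k (i.val + 1) (SimpleGraph.comap (Fin.castLE (Nat.succ_le_of_lt i.isLt)) G) ≠
      algo k (j.val + 1) (SimpleGraph.comap (Fin.castLE (Nat.succ_le_of_lt j.isLt)) G)) ∧
    (((Finset.univ.image (fun i : Fin n =>
      algo k (i.val + 1) (SimpleGraph.comap (Fin.castLE (Nat.succ_le_of_lt i.isLt)) G))).card : ℝ)
      ≤ (2100 * (k + 1) * 5 ^ k) ^ (k - 1) * (Real.log (n : ℝ)) ^ ((k - 1) * (k + 5))) := by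
  have hk : 1 ≤ k := by
    rcases Nat.eq_zero_or_pos k with h | h
    · subst h
      obtain ⟨c⟩ := hG
      exact (c ⟨0, by omega⟩).elim0
    · exact h
  have hc := liftG_colorable G hk hG
  have hF := liftG_free G hk hG
  constructor
  · intro i j hij
    rw [algo_eq hND hBL, algo_eq hND hBL]
    intro h
    have h' := Encodable.encode_injective h
    exact proper hND hBL _ k k _ hc hN hF i.val j.val ⟨i.isLt, j.isLt, hij⟩ h'
  · obtain ⟨h3, h4⟩ := hCMM 0 k n (fun G v hv => lab_in hND hBL 0 k G hv)
    have hsub : (Finset.univ.image (fun i : Fin n =>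
        algo k (i.val + 1)
          (SimpleGraph.comap (Fin.castLE (Nat.succ_le_of_lt i.isLt)) G))) ⊆
        (ColF k n (k - 1)).image Encodable.encode := by
      intro x hx
      rw [Finset.mem_image] at hx
      obtain ⟨i, -, rfl⟩ := hx
      rw [algo_eq hND hBL]
      exact Finset.mem_image_of_mem _ (h3 k _ i.val i.isLt)
    refine le_trans ?_ (numE k n hn)
    exact_mod_cast (Finset.card_le_card hsub).trans (Finset.card_image_le.trans (h4 (k - 1)))

end Pool.Agent.Helper63.PH
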