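import Pool.Agent.Helper63.PH.Alg

/-! Project PG (MP_cde131_lc), module CMM -/

set_option autoImplicit false

namespace Pool.Agent.Helper63.PH

open Pool.Agent.Helper63.PG hiding ci cj cl Bl isAnc anc near ng kap lab1 H1 tt Lab lab G3 Gm col AncS Vs UU LabF ColF
open Pool.Agent.Helper63.OC Pool.Agent.Helper24.OCM

open Classical in
theorem col_mem_CMM (K k n : ℕ)
    (hl : ∀ (G : SimpleGraph ℕ) (v : ℕ), v < n → lab K k G v ∈ LabF k (Nat.log 2 n)) :
    ∀ (w : ℕ) (G : SimpleGraph ℕ) (v : ℕ), v < n → col K k w G v ∈ ColF k n (w - 1)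
  | 0, _, _, _ => by
    show _ ∈ ColF k n 0
    rw [col, ColF]
    exact Finset.mem_singleton_self _
  | 1, _, _, _ => by
    show _ ∈ ColF k n 0
    rw [col, ColF]
    exact Finset.mem_singleton_self _
  | (w + 2), G, v, hv => by
    show _ ∈ ColF k n (w + 1)
    rw [col, ColF]
    have ih := col_mem_CMM K k n hl (w + 1) (Gm K k G) v hv
    have h1 := fcol_mem n v hv k (mono (G3 K k G) (col K k (w + 1) (Gm K k G)))
    refine Finset.mem_image.2 ⟨((lab K k G v,
      fcol k (mono (G3 K k G) (col K k (w + 1) (Gm K k G))) v), col K k (w + 1) (Gm K k G) v),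
      ?_, rfl⟩
    rw [Finset.mem_product, Finset.mem_product]
    exact ⟨⟨hl G v hv, h1⟩, ih⟩

open Classical in
theorem hCMM (K k n : ℕ)
    (hl : ∀ (G : SimpleGraph ℕ) (v : ℕ), v < n → lab K k G v ∈ LabF k (Nat.log 2 n)) :
    (∀ (w : ℕ) (G : SimpleGraph ℕ) (v : ℕ), v < n → col K k w G v ∈ ColF k n (w - 1)) ∧
    (∀ m, (ColF k n m).card ≤
      (((2 * Nat.log 2 n + 3) * (Nat.log 2 n + 1) * ((Nat.log 2 n + 2) * ((Nat.log 2 n + 1) *
      ((2 * (2 * Nat.log 2 n + 2) * Nat.log 2 n + 1) * (k + 1)))) *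
        (2 * (Nat.log 2 n + 1)) ^ (k - 1))) ^ m) := by
  refine ⟨col_mem_CMM K k n hl, ?_⟩
  have hL : (LabF k (Nat.log 2 n)).card =
      (2 * Nat.log 2 n + 3) * (Nat.log 2 n + 1) * ((Nat.log 2 n + 2) * ((Nat.log 2 n + 1) *
      ((2 * (2 * Nat.log 2 n + 2) * Nat.log 2 n + 1) * (k + 1)))) := by
    unfold LabF
    simp only [Finset.card_product, Finset.card_range]
  have hF : (F2 n (k - 1)).card ≤ (2 * (Nat.log 2 n + 1)) ^ (k - 1) := by
    rw [← card_T2]
    exact card_F2 n (k - 1)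
  intro m
  induction m with
  | zero =>
    rw [ColF, Finset.card_singleton, pow_zero]
  | succ m ih =>
    rw [ColF]
    refine Finset.card_image_le.trans ?_
    rw [Finset.card_product, Finset.card_product, pow_succ, mul_comm]
    apply Nat.mul_le_mul ih
    rw [hL]
    exact Nat.mul_le_mul_left _ hF

end Pool.Agent.Helper63.PH
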