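import Pool.Agent.Helper63.PH.Alg

/-! # Statements of the modules of project PH (S15365) -/

set_option autoImplicit false

namespace Pool.Agent.Helper63.PH

open Pool.Agent.Helper63.PG hiding ci cj cl Bl isAnc anc near ng kap lab1 H1 tt Lab lab G3 Gm col
  AncS Vs UU LabF ColF
open Pool.Agent.Helper63.OC Pool.Agent.Helper24.OCM

/-- MODULE ND (helper78). Static network decomposition (Linial-Saks). Let `P` be the relation
`nr G τ a b q` on `{0, ..., τ}` (all notions below inside this set). For a set `Z` of vertices `≤ τ`, `m = |Z| > 0`: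
choose `w ∈ Z`, `Z_0 = {w}`, `Z_(k+1)` = elements of `Z` related to an element of `Z_k` (or in `Z_k`), least `k`
with `|Z_(k+1)| ≤ 2 |Z_k|`, so `2^k ≤ |Z_k| ≤ τ + 1`, `k ≤ log2 (τ+1)`; `Z_k` becomes a cluster with
centre `w`, remove `Z_(k+1)`. Repeat: at least half of `Z` is in clusters (class `c`), the others are
treated in the next class; classes `0..log2 (τ + 1)`. -/
theorem nd (G : SimpleGraph ℕ) (τ q : ℕ) : ∃ p, NDec G τ q p := by
  sorry

/-- MODULE BL (helper78). The ball lemma. `bl G v r ≤ log2 (v + 1)` because the ball is in `{0..v}`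
(`bal_sub`), `bl` is increasing in `r`; among `r = 0, 2, ..., 2 log2 (v+1)` one has `bl G v r = bl G v (r+2)`.
So the set in the definition of `cr` is nonempty; `Nat.sInf_mem`, `Nat.sInf_le`. -/
theorem bls (K : ℕ) (G : SimpleGraph ℕ) (v : ℕ) : cr K G v ≤ 2 * Nat.log 2 (v + 1) ∧
    bl G v (cr K G v) = bl G v (cr K G v + 2) ∧ bl G v (cr K G v) ≤ Nat.log 2 (v + 1) := by
  sorry

/-- MODULE ANC. Let `u < v`, `(H1 K G).Adj u v`, equal `lab2`: by `hT` `tt u = tt v = τ`,
`w = fn u`, `w' = fn v` are `≤ τ`, H1-neighbours of `u`, `v`, so all `lab1` agree: `= (r, j)`.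
`bal G w r ⊆ bal (pre) ..`: both balls at time `τ` have at least `2 ^ j` elements and are contained in
`bal G v (r + 2)` with less than `2 ^ (j + 1)` elements (`bls`), so there is a common element and
`nr G τ w w' (2 r)`. Then `nd`. `dec G τ q` is `NDec (pre G τ) τ q`, and `nr (pre G τ) τ = nr G τ`
(`nr_pre le_rfl`). -/
theorem ancS (K : ℕ) (G : SimpleGraph ℕ) (hT : TauS (H1 K G)) : AncS K G := by
  sorry

/-- MODULE NUM. The number of colours is `(P (log2 n))^(k-1)`, `P` a polynomial of degree at most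
`k + 8`; as `log2 n ≤ 2 log n` for large `n`... the exponent `40 (k+1)^2` is more than enough
(for `k = 0` or `1` the left side is `1` and `log n > 1`). -/
theorem numeric : ∃ p : ℕ → ℕ, ∀ k : ℕ, ∃ N0 : ℕ, ∀ n : ℕ, N0 ≤ n →
    ((((2 * Nat.log 2 n + 3) * (Nat.log 2 n + 1) * ((Nat.log 2 n + 2) * ((Nat.log 2 n + 1) *
      ((2 * (2 * Nat.log 2 n + 2) * Nat.log 2 n + 1) * (k + 1)))) *
        (2 * (Nat.log 2 n + 1)) ^ (k - 1)) ^ (k - 1) : ℕ) : ℝ) < (Real.log (n : ℝ)) ^ (p k) := by
  sorry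

end Pool.Agent.Helper63.PH
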